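import Pool.Agent.helper56.P2B.SpecP

/-! Project p2b:, CVP: points at bounded hyperbolic distance converge. -/

set_option autoImplicit false

open Complex Metric Set Filter Topology MeasureTheory
open Pool.Agent.helper98.ILF
open WP (it)
open HY (UD T S hd UN RM)
open PM
open PL (TP LO PZ GJ INR PG DK ht tr DI CY SUBH hG hq BJ)
open P2 (SS FLS FL CLS FR TL)

noncomputable section

namespace P2B

theorem CVP (hTPM : TPM_stmt) : CVP_stmt := by
  intro V Ω φ χ hC ρ hρ z hz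
  have h0U : (0 : ℂ) ∈ UD := by simp [UD]
  have hRχ : RM (χ '' UD) 0 χ := ⟨hC.dif, hC.inj, rfl, hC.val⟩
  have key : ∀ (W : Set ℂ) (g : ℂ → ℂ), RM W 0 g → ∀ u ∈ UD, pd W 0 (g u) = ‖u‖ := by
    intro W g hg u hu
    have h1 := ((hTPM W 0 g hg).2 0 h0U).2 u hu
    rw [hg.val] at h1
    rw [h1]
    simp [T]
  have hu : ∀ l, ∃ u : ℂ, z l ∈ Ω l → u ∈ UD ∧ φ l u = z l := by
    intro l
    by_cases hl : z l ∈ Ω l
    · have h1 := hl
      rw [← (hC.rm l).img] at h1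
      obtain ⟨u, hu, hu'⟩ := h1
      exact ⟨u, fun _ => ⟨hu, hu'⟩⟩
    · exact ⟨0, fun h => absurd h hl⟩
  choose u hu using hu
  have hu1 : ∀ᶠ l in (V : Filter ℕ), u l ∈ closedBall (0 : ℂ) ρ := by
    filter_upwards [hz] with l hl
    obtain ⟨h1, h2⟩ := hl
    obtain ⟨h3, h4⟩ := hu l h1
    rw [mem_closedBall, dist_zero_right, ← key (Ω l) (φ l) (hC.rm l) (u l) h3, h4]
    exact h2
  obtain ⟨u₀, hu₀, hlim⟩ := (isCompact_closedBall (0 : ℂ) ρ).ultrafilter_le_nhds' (V.map u) hu1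
  have hlim' : Tendsto u V (𝓝 u₀) := hlim
  have hu₀' : ‖u₀‖ ≤ ρ := by simpa using hu₀
  have hu₀D : u₀ ∈ UD := by
    show u₀ ∈ ball (0 : ℂ) 1
    rw [mem_ball, dist_zero_right]
    exact hu₀'.trans_lt hρ
  refine ⟨χ u₀, ⟨u₀, hu₀D, rfl⟩, ?_, ?_⟩
  · rw [key _ _ hRχ u₀ hu₀D]
    exact hu₀'
  · have hin : ∀ᶠ l in (V : Filter ℕ), u l ∈ UD := by
      filter_upwards [hu1] with l hl
      show u l ∈ ball (0 : ℂ) 1
      rw [mem_ball]
      exact (mem_closedBall.1 hl).trans_lt hρ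
    have h1 : Tendsto u V (𝓝[UD] u₀) := tendsto_nhdsWithin_iff.2 ⟨hlim', hin⟩
    have h2 := hC.cv.tendsto_comp (hC.dif.continuousOn u₀ hu₀D) hu₀D h1
    refine h2.congr' ?_
    filter_upwards [hz] with l hl
    exact (hu l hl.1).2

end P2B

end
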